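import Mathlib

set_option autoImplicit false

namespace Pool.Agent.Results.MP_e1ef61_al.NotQV

/-- Algebras of type `⟨2,1,1⟩`. -/
class Alg (S : Type) extends Mul S where
  l : S → S
  r : S → S

/-- Terms. -/
inductive Tm
  | var (n : ℕ) | mul (a b : Tm) | l (a : Tm) | r (a : Tm)

/-- The value of a term. -/
def ev {S : Type} [Alg S] (v : ℕ → S) : Tm → S
  | .var n => v n
  | .mul a b => ev v a * ev v b
  | .l a => Alg.l (ev v a)
  | .r a => Alg.r (ev v a)

/-- `S` satisfies the quasi-identity with premises `q.1` and conclusion `q.2`. -/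
def Sat (S : Type) [Alg S] (q : List (Tm × Tm) × Tm × Tm) : Prop :=
  ∀ v : ℕ → S, (∀ p ∈ q.1, ev v p.1 = ev v p.2) → ev v q.2.1 = ev v q.2.2

/-- The relation `L*`; the second clause is the case `b = 1`. -/
def LS {S : Type} [Mul S] (x y : S) : Prop :=
  (∀ a b, x * a = x * b ↔ y * a = y * b) ∧ ∀ a, x * a = x ↔ y * a = y

/-- The relation `R*`. -/
def RS {S : Type} [Mul S] (x y : S) : Prop :=
  (∀ a b, a * x = b * x ↔ a * y = b * y) ∧ ∀ a, a * x = x ↔ a * y = y

/-- Amiable semigroups as algebras of type `⟨2,1,1⟩`. -/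
def Amiable (S : Type) [Alg S] : Prop :=
  (∀ x y z : S, x * y * z = x * (y * z)) ∧
  (∀ x e : S, (e * e = e ∧ LS x e) ↔ e = Alg.l x) ∧ ∀ x e : S, (e * e = e ∧ RS x e) ↔ e = Alg.r x

/-- The semigroup presented by `⟨a, b | a a = a, b b = b⟩`. -/
abbrev F : Type :=
  (conGen fun x y : FreeSemigroup Bool => ∃ c, x = .of c * .of c ∧ y = .of c).Quotient

/-- `S` has no subsemigroup isomorphic to `F`. -/
def Avoids (S : Type) [Mul S] : Prop := ¬ ∃ f : F →ₙ* S, Function.Injective f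

/-- The Catalan monoid. -/
def C (n : ℕ) : Type := {f : Fin (n + 1) → Fin (n + 1) // Monotone f ∧ ∀ i, f i ≤ i}

instance (n : ℕ) : Finite (C n) := Subtype.finite

open Finset in
noncomputable instance (n : ℕ) : Alg (C n) where
  mul f g := ⟨f.1 ∘ g.1, f.2.1.comp g.2.1, fun i => (f.2.2 _).trans (g.2.2 i)⟩
  l f := ⟨fun i => (univ.filter fun j => f.1 i ≤ f.1 j).inf' ⟨i, by simp⟩ id, fun i j h =>
    le_inf' _ _ fun k e => inf'_le _ (by simpa using (f.2.1 h).trans (by simpa using e)),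
    fun i => inf'_le id (by simp)⟩
  r f := ⟨fun i => (univ.filter fun j => f.1 j ≤ i).sup f.1, fun i j h =>
    sup_mono fun k e => by simpa using le_trans (by simpa using e) h,
    fun i => Finset.sup_le (by simp)⟩

theorem mul_eq {n : ℕ} {a b c d : C n} : a * b = c * d ↔ ∀ i, a.1 (b.1 i) = c.1 (d.1 i) :=
  Subtype.ext_iff.trans funext_iff

theorem mul_eq' {n : ℕ} {a b c : C n} : a * b = c ↔ ∀ i, a.1 (b.1 i) = c.1 i :=
  Subtype.ext_iff.trans funext_iff

theorem amiable (n : ℕ) : Amiable (C n) := by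
  refine ⟨fun _ _ _ => rfl, fun x e => ?_, fun x e => ?_⟩
  · have a : ∀ i, x.1 ((Alg.l x).1 i) = x.1 i := fun i => le_antisymm (x.2.1 ((Alg.l x).2.2 i)) (by
      obtain ⟨j, j1, j2⟩ := Finset.exists_mem_eq_inf' (s := Finset.univ.filter fun j => x.1 i ≤ x.1 j)
        ⟨i, by simp⟩ id
      exact (Finset.mem_filter.1 j1).2.trans_eq (congrArg x.1 j2.symm))
    have b : ∀ i j, x.1 i = x.1 j ↔ (Alg.l x).1 i = (Alg.l x).1 j := fun i j =>
      ⟨fun h => by simp only [Alg.l, h], fun h => by rw [← a, h, a]⟩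
    have c : Alg.l x * Alg.l x = Alg.l x := mul_eq'.2 fun i => (b _ _).1 (a i)
    refine ⟨fun ⟨h, _, k⟩ => Subtype.ext (funext fun i => le_antisymm ?_ ?_), ?_⟩
    · exact mul_eq'.1 ((k _).1 (mul_eq'.2 a)) i ▸ e.2.2 _
    · exact (b _ _).1 (mul_eq'.1 ((k _).2 h) i) ▸ (Alg.l x).2.2 _
    · rintro rfl
      exact ⟨c, fun _ _ => by simp only [mul_eq, b], fun _ => by simp only [mul_eq', b]⟩
  have a : ∀ i, (Alg.r x).1 (x.1 i) = x.1 i := fun i => le_antisymm ((Alg.r x).2.2 _)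
    (Finset.le_sup (f := x.1) (by simp))
  have b : ∀ i, ∃ j, (Alg.r x).1 i = x.1 j := fun i => by
    obtain ⟨j, -, j2⟩ := Finset.exists_mem_eq_sup (Finset.univ.filter fun j => x.1 j ≤ i)
      ⟨0, by simpa using (x.2.2 0).trans (Fin.zero_le i)⟩ x.1
    exact ⟨j, j2⟩
  have c : Alg.r x * Alg.r x = Alg.r x := mul_eq'.2 fun i => by
    obtain ⟨j, h⟩ := b i; rw [h, a]
  have d : ∀ P : Fin (n + 1) → Prop, (∀ i, P (x.1 i)) ↔ ∀ i, P ((Alg.r x).1 i) := fun P =>
    ⟨fun h i => by obtain ⟨j, e⟩ := b i; exact e ▸ h j, fun h i => a i ▸ h _⟩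
  refine ⟨fun ⟨h, _, k⟩ => Subtype.ext (funext fun i => le_antisymm ?_ ?_), ?_⟩
  · exact mul_eq'.1 ((k _).1 (mul_eq'.2 a)) i ▸ (Alg.r x).2.1 (e.2.2 _)
  · exact (d fun j => e.1 j = j).1 (mul_eq'.1 ((k _).2 h)) i ▸ e.2.1 ((Alg.r x).2.2 _)
  · rintro rfl
    exact ⟨c, fun u v => mul_eq.trans ((d fun j => u.1 j = v.1 j).trans mul_eq.symm),
      fun u => mul_eq'.trans ((d fun j => u.1 j = j).trans mul_eq'.symm)⟩

noncomputable instance : Alg (∀ n, C n) where
  l f n := Alg.l (f n)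
  r f n := Alg.r (f n)

theorem ev_pi (v : ℕ → ∀ n, C n) (n : ℕ) (a : Tm) : ev v a n = ev (fun i => v i n) a := by
  induction a <;> simp_all [ev, Alg.l, Alg.r]

def s (c : Bool) (i : ℕ) : ℕ := if (i % 2 == 0) = c then i - 1 else i

def g (c : Bool) (n : ℕ) : C n :=
  ⟨fun i => ⟨s c i, by unfold s; split_ifs <;> omega⟩, fun i j h => by
    simp only [Fin.le_def, s] at *; cases c <;> grind, fun i => by
    simp only [Fin.le_def, s]; split_ifs <;> omega⟩

noncomputable instance : Semigroup (∀ n, C n) where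
  mul_assoc _ _ _ := rfl

noncomputable def f : F →ₙ* ∀ n, C n where
  toFun := Quotient.lift (FreeSemigroup.lift g) fun _ _ h => (Con.conGen_le
    (c := Con.ker (FreeSemigroup.lift g))).2 (by
      rintro _ _ ⟨c, rfl, rfl⟩
      exact funext fun n => mul_eq'.2 fun i => Fin.ext (by
        change s c (s c i) = s c i
        unfold s; cases c <;> grind)) h
  map_mul' := by rintro ⟨x⟩ ⟨y⟩; exact map_mul (FreeSemigroup.lift g) x y

def o (c : Bool) : F := (FreeSemigroup.of c : FreeSemigroup Bool)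

def nf (c : Bool) : ℕ → F
  | 0 => o c
  | k + 1 => o (c ^^ k % 2 == 0) * nf c k

theorem oo (c : Bool) : o c * o c = o c := Quotient.sound (ConGen.Rel.of _ _ ⟨c, rfl, rfl⟩)

theorem surj (x : F) : ∃ c k, nf c k = x := by
  obtain ⟨x⟩ := x
  induction x with
  | ih1 c => exact ⟨c, 0, rfl⟩
  | ih2 d y _ i =>
    obtain ⟨c, k, i⟩ := i
    change ∃ c k, nf c k = o d * (show F from Quot.mk _ y)
    rw [← i]
    by_cases h : d = (c ^^ k % 2 == 0)
    · exact ⟨c, k + 1, h ▸ rfl⟩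
    refine ⟨c, k, ?_⟩
    cases k with
    | zero => rw [nf, show d = c by cases c <;> cases d <;> simp_all, oo]
    | succ k => rw [nf, ← mul_assoc, show d = (c ^^ k % 2 == 0) by
      cases c <;> cases d <;> simp_all <;> omega, oo]

theorem val (c : Bool) (k n : ℕ) (i : Fin (n + 1)) (h : k + 2 ≤ i) :
    ((f (nf c k) n).1 i : ℕ) = s c i - k := by
  induction k with
  | zero => rfl
  | succ k j =>
    rw [nf, map_mul]
    change s (c ^^ k % 2 == 0) ((f (nf c k) n).1 i) = _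
    rw [j (by omega)]
    unfold s
    cases c <;> grind

theorem inj : Function.Injective f := fun x y h => by
  obtain ⟨c, k, rfl⟩ := surj x
  obtain ⟨d, m, rfl⟩ := surj y
  have := fun i : Fin (k + m + 3 + 1) => fun a b => (val c k _ i a).symm.trans (h ▸ val d m _ i b)
  have a := this ⟨k + m + 2, by omega⟩ (by simp) (by simp)
  have b := this ⟨k + m + 3, by omega⟩ (by simp; omega) (by simp; omega)
  obtain ⟨rfl, rfl⟩ : c = d ∧ k = m := by
    simp only [s] at a b
    cases c <;> cases d <;> grind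
  rfl

theorem nf_inj : Function.Injective (nf true) := fun k m h => by
  have a := (val true k _ (Fin.last (k + m + 2)) (by simp)).symm.trans
    (h ▸ val true m _ _ (by simp))
  simp only [s, Fin.val_last] at a
  grind

theorem result : ¬ ∃ Q : Set (List (Tm × Tm) × Tm × Tm),
    ∀ (S : Type) [Alg S], (Amiable S ∧ Avoids S) ↔ ∀ q ∈ Q, Sat S q := by
  rintro ⟨Q, h⟩
  have := Infinite.of_injective _ nf_inj
  refine ((h (∀ n, C n)).2 fun q e v k => funext fun n => ?_).2 ⟨f, inj⟩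
  rw [ev_pi, ev_pi]
  exact (h (C n)).1 ⟨amiable n, fun ⟨_, i⟩ => not_injective_infinite_finite _ i⟩ q e _
    fun p j => by rw [← ev_pi, ← ev_pi, k p j]

end Pool.Agent.Results.MP_e1ef61_al.NotQV
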